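import Pool.Agent.J6H93.NG.G13.F0
import Pool.Agent.J6H93.NG.G13.F1
import Pool.Agent.J6H93.NG.G13.F2
import Pool.Agent.J6H93.NG.G13.F3
import Pool.Agent.J6H93.NG.G13.F4
import Pool.Agent.J6H93.NG.G13.F5
import Pool.Agent.J6H93.NG.G13.F6
import Pool.Agent.J6H93.NG.G13.F7

/-! Certificate data (G13): conclusion -/

set_option autoImplicit false

namespace Pool.Agent.J6H93.NG.G13

open Pool.Agent.J6H93.NG

theorem all : RW 13 4 1 := by
  have h1 := F0.all (fun m hm => absurd hm (Nat.not_lt_zero m))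
  have h2 := F1.all h1
  have h3 := F2.all h2
  have h4 := F3.all h3
  have h5 := F4.all h4
  have h6 := F5.all h5
  have h7 := F6.all h6
  have h8 := F7.all h7
  exact h8 6643 (by norm_num)

end Pool.Agent.J6H93.NG.G13
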